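import Mathlib

namespace Pool.Agent.Results.MP_798444_co.Twins

/-- `f` is harmonic: `deg v * f v` is the sum of `f` over the neighbours of `v`. -/
def Harmonic {V : Type} (G : SimpleGraph V) [G.LocallyFinite] (f : V → ℤ) : Prop :=
  ∀ v, (G.degree v : ℤ) * f v = ∑ u ∈ G.neighborFinset v, f u

def G : SimpleGraph (ℤ × Bool) where
  Adj a b := b.1 = a.1 + 1 ∨ a.1 = b.1 + 1
  symm := ⟨fun _ _ h => h.symm⟩
  loopless := ⟨fun a h => by omega⟩

theorem fin (v : ℤ × Bool) : (G.neighborSet v).Finite := by
  refine (Set.toFinite ({(v.1 + 1, true), (v.1 + 1, false), (v.1 - 1, true), (v.1 - 1, false)} :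
    Set (ℤ × Bool))).subset ?_
  rintro ⟨a, b⟩ h
  have h' : a = v.1 + 1 ∨ v.1 = a + 1 := h
  rcases h' with h' | h'
  · cases b <;> simp [h']
  · cases b <;> simp [h']

noncomputable instance : G.LocallyFinite := fun v => (fin v).fintype

def sh (k : ℤ) (c : Bool) : G ≃g G where
  toFun a := (a.1 + k, xor a.2 c)
  invFun a := (a.1 - k, xor a.2 c)
  left_inv a := by simp
  right_inv a := by simp
  map_rel_iff' := by
    intro a b
    show (b.1 + k = a.1 + k + 1 ∨ a.1 + k = b.1 + k + 1) ↔ (b.1 = a.1 + 1 ∨ a.1 = b.1 + 1)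
    omega

theorem conn : G.Connected := by
  have h1 : ∀ (n : ℤ) (b : Bool), G.Reachable (0, true) (n, b) := by
    intro n
    induction n using Int.induction_on with
    | zero =>
      intro b
      have a1 : G.Adj (0, true) (1, true) := Or.inl rfl
      have a2 : G.Adj (1, true) (0, b) := Or.inr rfl
      exact a1.reachable.trans a2.reachable
    | succ i ih =>
      intro b
      have a1 : G.Adj ((i : ℤ), true) (i + 1, b) := Or.inl rfl
      exact (ih true).trans a1.reachable
    | pred i ih =>
      intro b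
      have a1 : G.Adj (-(i : ℤ), true) (-i - 1, b) := Or.inr (by simp)
      exact (ih true).trans a1.reachable
  exact ⟨fun a b => (h1 a.1 a.2).symm.trans (h1 b.1 b.2)⟩

theorem result : ∃ (V : Type) (G : SimpleGraph V) (_ : G.LocallyFinite),
    Infinite V ∧ G.Connected ∧ (∀ u v : V, ∃ φ : G ≃g G, φ u = v) ∧
      ∀ f : V → ℤ, Harmonic G f → ¬ Function.Injective f := by
  refine ⟨ℤ × Bool, G, inferInstance, inferInstance, conn, fun u v => ?_, fun f hf hi => ?_⟩
  · refine ⟨sh (v.1 - u.1) (xor u.2 v.2), ?_⟩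
    show (u.1 + (v.1 - u.1), xor u.2 (xor u.2 v.2)) = v
    simp
  · have e : G.neighborFinset (0, true) = G.neighborFinset (0, false) := by
      ext x; simp only [SimpleGraph.mem_neighborFinset]; rfl
    have ed : G.degree (0, true) = G.degree (0, false) := by
      rw [← SimpleGraph.card_neighborFinset_eq_degree, e, SimpleGraph.card_neighborFinset_eq_degree]
    have hp : 0 < G.degree (0, true) :=
      (G.degree_pos_iff_exists_adj _).2 ⟨(1, true), Or.inl rfl⟩
    have h1 := hf (0, true)
    have h2 := hf (0, false)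
    rw [← e, ← ed, ← h1] at h2
    have h3 := mul_left_cancel₀ (by exact_mod_cast hp.ne') h2
    exact absurd (hi h3) (by simp)

end Pool.Agent.Results.MP_798444_co.Twins
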